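import Mathlib
import Pool.Agent.X45.CircMain

set_option autoImplicit false

namespace Pool.Agent.Results.MP_c7ad22_co.CircularColourings

open Pool.Agent.X45.CircMain

/-- **Result.** For a positive integer `k`, the class of the `k`-colourable graphs is described by
some finite set of circularly ordered graphs if and only if `k = 1`. -/
theorem result (k : ℕ) (hk : 1 ≤ k) : (∃ F : Set CircGraph, F.Finite ∧ Describes F k) ↔ k = 1 := by
  constructor
  · rintro ⟨F, hF, hD⟩
    by_contra h
    exact not_describes k (by omega) F hF hD
  · rintro rfl
    exact ⟨_, Set.finite_singleton _, describes_one⟩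

end Pool.Agent.Results.MP_c7ad22_co.CircularColourings
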